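import Mathlib
import Pool.Agent.Lib.MP_e0d3d5_al.Fwd2
import Pool.Agent.Lib.MP_e0d3d5_al.Pencil

/-!
All realizable pairs `(A, B)` in which no element of `B` exceeds `p ^ 2`.
-/

set_option autoImplicit false

open Pool.Agent.Lib.MP_e0d3d5_al

/-- For every prime `p`, the realizable pairs `(A, B)` with `B ⊆ {1, p, p ^ 2}`. -/
theorem Pool.Agent.Results.MP_e0d3d5_al.ClassSizesLePSq.result (p : ℕ) (hp : p.Prime)
    (A : Set ℕ) :
    (Realizable p A {1} ↔ A = {1}) ∧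
    (Realizable p A {1, p} ↔ ∃ e, 1 ≤ e ∧ A = {1, p ^ e}) ∧
    (Realizable p A {1, p ^ 2} ↔ ∃ e, 1 ≤ e ∧ A = {1, p ^ e}) ∧
    (Realizable p A {1, p, p ^ 2} ↔ ∃ E : Finset ℕ, ∃ M ∈ E, (∀ e ∈ E, 1 ≤ e ∧ e ≤ M) ∧
      A = insert 1 ((fun e => p ^ e) '' (E : Set ℕ)) ∧ E.card ≤ p + 1 ∧
      ∑ e ∈ E, (M - e) ≤ M) := by
  have : Fact p.Prime := ⟨hp⟩
  refine ⟨⟨?_, ?_⟩, ⟨?_, ?_⟩, ⟨?_, ?_⟩, ⟨?_, ?_⟩⟩
  · rintro ⟨P, _, _, _, hcd, hcs⟩
    rw [← hcd]
    exact fwd_one hcs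
  · rintro rfl
    have hcs : csSet (Multiplicative Unit) = {1} := by
      ext c
      constructor
      · rintro ⟨x, rfl⟩
        apply index_of_center
        rw [Subgroup.mem_center_iff]
        exact fun g => Subsingleton.elim _ _
      · rintro rfl
        refine ⟨1, index_of_center (Subgroup.one_mem _)⟩
    refine ⟨Multiplicative Unit, inferInstance, inferInstance, ?_, fwd_one hcs, hcs⟩
    intro g
    exact ⟨0, Subsingleton.elim _ _⟩
  · rintro ⟨P, _, _, hP, rfl, hcs⟩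
    exact fwd_p hP hcs
  · rintro ⟨e, he, rfl⟩
    have h := realizable_heis (p := p) (a := e) (b := 1) le_rfl he
    rwa [pow_one] at h
  · rintro ⟨P, _, _, hP, rfl, hcs⟩
    exact fwd_psq hP hcs
  · rintro ⟨e, he, rfl⟩
    by_cases h1 : e = 1
    · subst h1
      exact realizable_cross (p := p) (a := 1) le_rfl
    · exact realizable_heis (p := p) (a := e) (b := 2) (by norm_num) (by omega)
  · rintro ⟨P, _, _, hP, rfl, hcs⟩
    obtain ⟨E, hne, h1, h2, h3, h4⟩ := fwd_three hP hcs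
    refine ⟨E, E.max' hne, E.max'_mem hne, fun e he => ⟨h1 e he, E.le_max' e he⟩, h2, h3,
      h4 _ (E.max'_mem hne)⟩
  · rintro ⟨E, M, hM, h1, rfl, h3, h4⟩
    exact realizable_three hM (fun e he => (h1 e he).1) (fun e he => (h1 e he).2) h3 h4
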