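import Mathlib
import Pool.Agent.Lib.MP_e0d3d5_al.Forward
import Pool.Agent.Lib.MP_e0d3d5_al.Examples

/-!
The realizable pairs `(A, B)` with two elements in `A` and two elements in `B`.
-/

set_option autoImplicit false

open Pool.Agent.Lib.MP_e0d3d5_al

/-- For every prime `p` and all `a, b ≥ 1`, the pair `({1, p ^ a}, {1, p ^ b})` is realizable if and
only if `b ≤ a` or `b = 2 a`. -/
theorem Pool.Agent.Results.MP_e0d3d5_al.TwoByTwo.result (p : ℕ) (hp : p.Prime) (a b : ℕ)
    (ha : 1 ≤ a) (hb : 1 ≤ b) :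
    Realizable p {1, p ^ a} {1, p ^ b} ↔ b ≤ a ∨ b = 2 * a := by
  have : Fact p.Prime := ⟨hp⟩
  constructor
  · rintro ⟨P, _, _, hP, hcd, hcs⟩
    exact forward hP ha hb hcd hcs
  · rintro (h | rfl)
    · exact realizable_heis hb h
    · exact realizable_cross ha
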